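import Pool.Agent.helper51.VR.Spec

set_option autoImplicit false

namespace Pool.Agent.VR

open Pool.Agent.RB NumberField IsDedekindDomain Module
open scoped nonZeroDivisors Real Classical IsMulCommutative

theorem LAM : LAM_stmt := by
  intro A _ N l
  let M : Submodule ℤ (Fin N → ℤ) := LinearMap.range l.toIntLinearMap
  obtain ⟨n, ⟨b⟩⟩ := Submodule.nonempty_basis_of_pid (Pi.basisFun ℤ (Fin N)) M
  have hn : n ≤ N := by
    have h1 : Module.finrank ℤ M = n := by
      rw [Module.finrank_eq_card_basis b, Fintype.card_fin]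
    have h2 : Module.finrank ℤ M ≤ Module.finrank ℤ (Fin N → ℤ) := Submodule.finrank_le M
    rw [h1, Module.finrank_fin_fun] at h2
    exact h2
  have hpre : ∀ i : Fin n, ∃ x : A, l x = (b i : Fin N → ℤ) := fun i => (b i).2
  choose y hy using hpre
  let e : Fin n → Fin N := Fin.castLE hn
  have he : Function.Injective e := Fin.castLE_injective hn
  refine ⟨Function.extend e y 0, fun x => ?_⟩
  have hx : l x ∈ M := ⟨x, rfl⟩
  obtain ⟨c, hc⟩ : ∃ c : Fin n → ℤ, l x = ∑ i, c i • (b i : Fin N → ℤ) := by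
    refine ⟨fun i => b.repr ⟨l x, hx⟩ i, ?_⟩
    have h3 := congrArg (fun z : M => (z : Fin N → ℤ)) (b.sum_repr ⟨l x, hx⟩)
    simp only at h3
    rw [Submodule.coe_sum] at h3
    exact h3.symm
  refine ⟨Function.extend e c 0, ?_⟩
  rw [hc]
  refine Fintype.sum_of_injective e he _ _ ?_ ?_
  · intro k hk
    rw [Function.extend_apply' _ _ _ (fun h => hk h), Function.extend_apply' _ _ _ (fun h => hk h)]
    simp
  · intro i
    rw [he.extend_apply, he.extend_apply, hy]

end Pool.Agent.VR
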